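import Pool.Agent.Mg.F1f1ca1.G30c098
import Pool.Agent.Mg.F1f1ca1.Gf71bbe

/-! The minimum number of circles determined by `n` points of the plane that are neither collinear
nor concyclic, for every `n ≥ 4`. -/

open Pool.Agent.MP_1f1ca1_co

theorem Pool.Agent.Results.MP_1f1ca1_co.MinCircles.result (n : ℕ) (hn : 4 ≤ n) :
    IsLeast
      {k : ℕ | ∃ P : Finset (EuclideanSpace ℝ (Fin 2)), P.card = n ∧
        ¬ Collinear ℝ (P : Set (EuclideanSpace ℝ (Fin 2))) ∧
        ¬ EuclideanGeometry.Cospherical (P : Set (EuclideanSpace ℝ (Fin 2))) ∧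
        k = Set.ncard {s : EuclideanGeometry.Sphere (EuclideanSpace ℝ (Fin 2)) |
          3 ≤ Set.ncard ((P : Set (EuclideanSpace ℝ (Fin 2))) ∩ (s : Set (EuclideanSpace ℝ (Fin 2))))}}
      (if n = 6 then 8 else if n = 7 then 11 else if n = 8 then 17
        else (n - 1).choose 2 + 1 - (n - 1) / 2) := by
  have low : ∀ P : Finset Pt, P.card = n → ¬ Collinear ℝ (P : Set Pt) →
      ¬ EuclideanGeometry.Cospherical (P : Set Pt) → tgt n ≤ (Bl P \ Ln P).card := by
    intro P h1 h2 h3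
    rw [← h1]
    exact (geo_of (by omega) h2 h3).lower_all (by omega)
  constructor
  · obtain ⟨P, h1, h2, h3⟩ := upper n hn
    refine ⟨P, h1, h2.1, h2.2, ?_⟩
    rw [count_eq]
    exact le_antisymm (low P h1 h2.1 h2.2) h3
  · rintro k ⟨P, h1, h2, h3, rfl⟩
    rw [count_eq]
    exact low P h1 h2 h3
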