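import Pool.Agent.MP_1f1ca1_co.Gap4

/-! The minimum number of circles determined by `n ≥ 36` points of the plane with at most `n - 2`
points on every line and on every circle. -/

open Pool.Agent.MP_1f1ca1_co

theorem Pool.Agent.Results.MP_1f1ca1_co.SecondMin.result (n : ℕ) (hn : 36 ≤ n) :
    IsLeast
      {k : ℕ | ∃ P : Finset (EuclideanSpace ℝ (Fin 2)), P.card = n ∧
        (∀ Q ⊆ P, Collinear ℝ (Q : Set (EuclideanSpace ℝ (Fin 2))) ∨
          EuclideanGeometry.Cospherical (Q : Set (EuclideanSpace ℝ (Fin 2))) → Q.card ≤ n - 2) ∧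
        k = Set.ncard {s : EuclideanGeometry.Sphere (EuclideanSpace ℝ (Fin 2)) |
          3 ≤ Set.ncard ((P : Set (EuclideanSpace ℝ (Fin 2))) ∩ (s : Set (EuclideanSpace ℝ (Fin 2))))}}
      ((n - 2) ^ 2 + 1 - 5 * ((n - 2) / 2)) := by
  have low : ∀ P : Finset Pt, P.card = n →
      (∀ Q ⊆ P, Collinear ℝ (Q : Set Pt) ∨ EuclideanGeometry.Cospherical (Q : Set Pt) →
        Q.card ≤ n - 2) → (n - 2) ^ 2 + 1 ≤ (Bl P \ Ln P).card + 5 * ((n - 2) / 2) := by
    intro P h1 h2
    have h3 := h2 P (Finset.Subset.refl P)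
    subst h1
    exact second_lower (geo_of (by omega) (fun h => by have := h3 (Or.inl h); omega)
      (fun h => by have := h3 (Or.inr h); omega)) hn ((few_iff (by omega)).1 h2)
  constructor
  · obtain ⟨P, h1, h2, h3⟩ := second_upper (n - 2) (by omega)
    have h4 := (few_iff (by omega)).2 h2
    have h5 := low P (by omega) h4
    refine ⟨P, by omega, h4, ?_⟩
    rw [count_eq]
    omega
  · rintro k ⟨P, h1, h2, rfl⟩
    have := low P h1 h2
    rw [count_eq]
    omega
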